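import Mathlib

/-!
# Balanced bipartitions of bipartite graphs of maximum degree two (MP_abf47a_co)
-/

set_option autoImplicit false

namespace Pool.Agent.Helper75.WG

open Finset

theorem comp_le {V : Type*} [Fintype V] [DecidableEq V] (K : SimpleGraph V) [DecidableRel K.Adj]
    (hK : K.Connected) (χ : V → Bool) (hχ : ∀ v w, K.Adj v w → χ v ≠ χ w)
    (hd : ∀ v, K.degree v ≤ 2) :
    (univ.filter fun v => χ v = true).card ≤ (univ.filter fun v => χ v = false).card + 1 := by
  have hb : K.IsBipartiteWith ((univ.filter fun v => χ v = false : Finset V) : Set V)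
      ((univ.filter fun v => χ v = true : Finset V) : Set V) := by
    refine ⟨?_, ?_⟩
    · rw [disjoint_coe, disjoint_left]
      intro v h1 h2
      simp only [mem_filter, mem_univ, true_and] at h1 h2
      rw [h1] at h2
      exact Bool.noConfusion h2
    · intro v w hvw
      have h1 := hχ v w hvw
      simp only [coe_filter, mem_univ, true_and, Set.mem_setOf_eq]
      cases h2 : χ v <;> cases h3 : χ w <;> simp_all
  have h1 := SimpleGraph.isBipartiteWith_sum_degrees_eq_card_edges hb
  have h2 : ∑ v ∈ univ.filter (fun v => χ v = false), K.degree v ≤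
      ∑ _v ∈ univ.filter (fun v => χ v = false), 2 := sum_le_sum fun v _ => hd v
  have h3 := hK.card_vert_le_card_edgeSet_add_one
  rw [Nat.card_eq_fintype_card, Nat.card_eq_fintype_card, ← SimpleGraph.edgeFinset_card] at h3
  have h4 := card_filter_add_card_filter_not (s := (univ : Finset V)) (fun v => χ v = true)
  simp only [Bool.not_eq_true, card_univ] at h4
  rw [sum_const, smul_eq_mul] at h2
  omega

theorem ncard_eq_degree {W : Type*} [Fintype W] (H : SimpleGraph W) [DecidableRel H.Adj] (v : W) :
    (H.neighborSet v).ncard = H.degree v := by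
  rw [← SimpleGraph.card_neighborFinset_eq_degree, Set.ncard_eq_toFinset_card']
  rfl

open Classical in
theorem comp_le' {W : Type*} [Fintype W] (H : SimpleGraph W) (χ : W → Bool)
    (hχ : ∀ v w, H.Adj v w → χ v ≠ χ w) (hd : ∀ v, (H.neighborSet v).ncard ≤ 2) (C : H.ConnectedComponent) :
    (univ.filter fun v => H.connectedComponentMk v = C ∧ χ v = true).card ≤
      (univ.filter fun v => H.connectedComponentMk v = C ∧ χ v = false).card + 1 := by
  have h1 := comp_le C.toSimpleGraph C.connected_toSimpleGraph (fun v => χ v.1)
    (fun v w h => hχ v.1 w.1 h) (fun v => by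
      refine le_trans ?_ (hd v.1)
      rw [ncard_eq_degree, ← SimpleGraph.card_neighborFinset_eq_degree, ← SimpleGraph.card_neighborFinset_eq_degree]
      refine card_le_card_of_injOn Subtype.val ?_ Subtype.val_injective.injOn
      intro w hw
      rw [mem_coe, SimpleGraph.mem_neighborFinset] at hw ⊢
      exact hw)
  have h2 : ∀ b : Bool, (univ.filter fun v : C => χ v.1 = b).card =
      (univ.filter fun v => H.connectedComponentMk v = C ∧ χ v = b).card := by
    intro b
    refine card_bij (fun v _ => v.1) ?_ ?_ ?_
    · intro v hv
      rw [mem_filter] at hv ⊢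
      exact ⟨mem_univ _, v.2, hv.2⟩
    · intro v _ w _ h
      exact Subtype.ext h
    · intro v hv
      rw [mem_filter] at hv
      exact ⟨⟨v, hv.2.1⟩, mem_filter.mpr ⟨mem_univ _, hv.2.2⟩, rfl⟩
  rw [h2, h2] at h1
  exact h1

open Classical in
/-- One vertex can be moved from the larger class. -/
theorem step {W : Type*} [Fintype W] (H : SimpleGraph W) (χ : W → Bool)
    (hχ : ∀ v w, H.Adj v w → χ v ≠ χ w) (hd : ∀ v, (H.neighborSet v).ncard ≤ 2)
    (h : (univ.filter fun v => χ v = false).card < (univ.filter fun v => χ v = true).card) :
    ∃ χ' : W → Bool, (∀ v w, H.Adj v w → χ' v ≠ χ' w) ∧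
      (univ.filter fun v => χ' v = true).card + 1 = (univ.filter fun v => χ v = true).card := by
  obtain ⟨C, hC⟩ : ∃ C : H.ConnectedComponent,
      (univ.filter fun v => H.connectedComponentMk v = C ∧ χ v = false).card <
        (univ.filter fun v => H.connectedComponentMk v = C ∧ χ v = true).card := by
    by_contra hcon
    push Not at hcon
    have key : ∀ b : Bool, (univ.filter fun v => χ v = b).card =
        ∑ C : H.ConnectedComponent,
          (univ.filter fun v => H.connectedComponentMk v = C ∧ χ v = b).card := by
      intro b
      rw [card_eq_sum_card_fiberwise (f := H.connectedComponentMk) (t := univ)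
        (fun _ _ => mem_coe.mpr (mem_univ _))]
      refine sum_congr rfl fun C _ => ?_
      congr 1
      ext v
      simp only [mem_filter, mem_univ, true_and]
      tauto
    rw [key, key] at h
    exact absurd (sum_le_sum fun C _ => hcon C) (not_le.mpr h)
  have h1 := comp_le' H χ hχ hd C
  refine ⟨fun v => if H.connectedComponentMk v = C then !(χ v) else χ v, ?_, ?_⟩
  · intro v w hvw
    have h2 : H.connectedComponentMk v = H.connectedComponentMk w :=
      SimpleGraph.ConnectedComponent.sound hvw.reachable
    have h3 := hχ v w hvw
    simp only [h2]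
    split_ifs
    · simpa using h3
    · exact h3
  · have e1 : (univ.filter fun v => (if H.connectedComponentMk v = C then !(χ v) else χ v) = true) =
        (univ.filter fun v => H.connectedComponentMk v = C ∧ χ v = false) ∪
          (univ.filter fun v => H.connectedComponentMk v ≠ C ∧ χ v = true) := by
      ext v
      simp only [mem_filter, mem_univ, true_and, mem_union]
      by_cases k : H.connectedComponentMk v = C <;> simp [k]
    have e2 : (univ.filter fun v => χ v = true) =
        (univ.filter fun v => H.connectedComponentMk v = C ∧ χ v = true) ∪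
          (univ.filter fun v => H.connectedComponentMk v ≠ C ∧ χ v = true) := by
      ext v
      simp only [mem_filter, mem_univ, true_and, mem_union]
      by_cases k : H.connectedComponentMk v = C <;> simp [k]
    rw [e1, e2, card_union_of_disjoint, card_union_of_disjoint]
    · omega
    · rw [disjoint_left]
      intro v h1 h2
      simp only [mem_filter, mem_univ, true_and] at h1 h2
      exact h2.1 h1.1
    · rw [disjoint_left]
      intro v h1 h2
      simp only [mem_filter, mem_univ, true_and] at h1 h2
      exact h2.1 h1.1

open Classical in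
/-- A bipartite graph on `2 s` vertices of maximum degree at most two is balanced. -/
theorem balanced {W : Type*} [Fintype W] (H : SimpleGraph W)
    (hH : H.IsBipartite) (hd : ∀ v, (H.neighborSet v).ncard ≤ 2) (s : ℕ) (hW : Fintype.card W = 2 * s) :
    ∃ χ : W → Bool, (∀ v w, H.Adj v w → χ v ≠ χ w) ∧
      (univ.filter fun v => χ v = true).card = s ∧ (univ.filter fun v => χ v = false).card = s := by
  have hsum : ∀ χ : W → Bool, (univ.filter fun v => χ v = true).card +
      (univ.filter fun v => χ v = false).card = 2 * s := by
    intro χ
    have h4 := card_filter_add_card_filter_not (s := (univ : Finset W)) (fun v => χ v = true)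
    simp only [Bool.not_eq_true, card_univ] at h4
    omega
  have main : ∀ (n : ℕ) (χ : W → Bool), (∀ v w, H.Adj v w → χ v ≠ χ w) →
      (univ.filter fun v => χ v = true).card = s + n →
      ∃ χ' : W → Bool, (∀ v w, H.Adj v w → χ' v ≠ χ' w) ∧
        (univ.filter fun v => χ' v = true).card = s := by
    intro n
    induction n with
    | zero => exact fun χ h1 h2 => ⟨χ, h1, h2⟩
    | succ n ih =>
      intro χ h1 h2
      have h3 := hsum χ
      obtain ⟨χ', h4, h5⟩ := step H χ h1 hd (by omega)
      exact ih χ' h4 (by omega)
  obtain ⟨c⟩ := hH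
  obtain ⟨χ, hχ⟩ : ∃ χ : W → Bool, ∀ v w, H.Adj v w → χ v ≠ χ w := by
    refine ⟨fun v => decide (c v = 0), fun v w hvw h => ?_⟩
    have h1 := c.valid hvw
    simp only [decide_eq_decide] at h
    apply h1
    have h2 : ∀ x y : Fin 2, (x = 0 ↔ y = 0) → x = y := by decide
    exact h2 _ _ h
  obtain ⟨χ', h1, h2⟩ : ∃ χ' : W → Bool, (∀ v w, H.Adj v w → χ' v ≠ χ' w) ∧
      (univ.filter fun v => χ' v = true).card = s := by
    rcases Nat.le_total s (univ.filter fun v => χ v = true).card with h | h
    · exact main _ χ hχ (Nat.add_sub_cancel' h).symm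
    · have h1 := hsum χ
      have h2 : (univ.filter fun v => (!(χ v)) = true).card =
          (univ.filter fun v => χ v = false).card := by
        congr 1
        ext v
        simp
      exact main (s - (univ.filter fun v => χ v = true).card) (fun v => !(χ v))
        (fun v w hvw => by simpa using hχ v w hvw) (by rw [h2]; omega)
  exact ⟨χ', h1, h2, by have := hsum χ'; omega⟩

end Pool.Agent.Helper75.WG
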