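import Pool.Agent.Helper75.WG.Pot

/-!
# The violator (MP_abf47a_co)
-/

set_option autoImplicit false

namespace Pool.Agent.Helper75.WG

open Finset

section counts

variable {Q A : Type*} [Fintype A] [DecidableEq Q] [DecidableEq A]

/-- The number of elements of `Z` in `S q`. -/
def cc (S : Q → Finset A) (Z : Finset A) (q : Q) : ℤ := ((Z ∩ S q).card : ℤ)

/-- The number of elements of `Z` in `S q` and `S r`. -/
def ee (S : Q → Finset A) (Z : Finset A) (q r : Q) : ℤ := ((Z ∩ (S q ∩ S r)).card : ℤ)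

theorem ci (T : Finset A) : (T.card : ℤ) = ∑ a : A, if a ∈ T then 1 else 0 := by
  simp

theorem cc_nonneg (S : Q → Finset A) (Z : Finset A) (q : Q) : 0 ≤ cc S Z q := by
  unfold cc
  positivity

theorem ee_comm (S : Q → Finset A) (Z : Finset A) (q r : Q) : ee S Z q r = ee S Z r q := by
  unfold ee
  rw [inter_comm (S q)]

theorem cc_le (S : Q → Finset A) (Z : Finset A) (q : Q) : cc S Z q ≤ ((S q).card : ℤ) := by
  unfold cc
  exact_mod_cast card_le_card inter_subset_right

theorem ee_le (S : Q → Finset A) (Z : Finset A) (q r : Q) : ee S Z q r ≤ ov S q r := by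
  unfold ee ov
  exact_mod_cast card_le_card inter_subset_right

theorem f1 {S : Q → Finset A} {Z : Finset A} {q r : Q} (hZ : Z ⊆ S q ∪ S r) :
    ee S Z q r + (Z.card : ℤ) = cc S Z q + cc S Z r := by
  unfold ee cc
  rw [ci, ci, ci, ci, ← sum_add_distrib, ← sum_add_distrib]
  refine sum_congr rfl fun a _ => ?_
  have h := @hZ a
  rw [mem_union] at h
  by_cases h1 : a ∈ Z <;> by_cases h2 : a ∈ S q <;> by_cases h3 : a ∈ S r <;> simp [h1, h2, h3] <;>
    simp_all

theorem f2 {S : Q → Finset A} {Z : Finset A} {q r : Q} (hZ : Z ⊆ S q ∪ S r) :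
    ov S q r + (Z.card : ℤ) ≤ ((S r).card : ℤ) + cc S Z q := by
  unfold ov cc
  rw [ci, ci, ci, ci, ← sum_add_distrib, ← sum_add_distrib]
  refine sum_le_sum fun a _ => ?_
  have h := @hZ a
  rw [mem_union] at h
  by_cases h1 : a ∈ Z <;> by_cases h2 : a ∈ S q <;> by_cases h3 : a ∈ S r <;> simp [h1, h2, h3] <;>
    simp_all

theorem f3 {S : Q → Finset A} {Z : Finset A} {q r : Q} (hZ : Z ⊆ S q ∪ S r) (w : Q) :
    cc S Z w ≤ ov S w r + ee S Z w q := by
  unfold ov cc ee
  rw [ci, ci, ci, ← sum_add_distrib]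
  refine sum_le_sum fun a _ => ?_
  have h := @hZ a
  rw [mem_union] at h
  by_cases h1 : a ∈ Z <;> by_cases h2 : a ∈ S q <;> by_cases h3 : a ∈ S r <;>
    by_cases h4 : a ∈ S w <;> simp [h1, h2, h3, h4] <;> simp_all

theorem f5 (S : Q → Finset A) (Z : Finset A) (u q v : Q) :
    ee S Z u q + ee S Z q v ≤ cc S Z q + ee S Z u v := by
  unfold cc ee
  rw [ci, ci, ci, ci, ← sum_add_distrib, ← sum_add_distrib]
  refine sum_le_sum fun a _ => ?_
  by_cases h1 : a ∈ Z <;> by_cases h2 : a ∈ S q <;> by_cases h3 : a ∈ S u <;>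
    by_cases h4 : a ∈ S v <;> simp [h1, h2, h3, h4]

theorem f6 {S : Q → Finset A} {Z : Finset A} {q r u v : Q} (h1 : Z ⊆ S q ∪ S r)
    (h2 : Z ⊆ S u ∪ S v) :
    cc S Z q + cc S Z r + ee S Z u v ≤ ee S Z q u + ee S Z q v + (ee S Z r u + ee S Z r v) := by
  unfold cc ee
  rw [ci, ci, ci, ci, ci, ci, ci, ← sum_add_distrib, ← sum_add_distrib, ← sum_add_distrib,
    ← sum_add_distrib, ← sum_add_distrib]
  refine sum_le_sum fun a _ => ?_
  have h1 := @h1 a
  have h2 := @h2 a
  rw [mem_union] at h1 h2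
  by_cases k1 : a ∈ Z <;> by_cases k2 : a ∈ S q <;> by_cases k3 : a ∈ S r <;>
    by_cases k4 : a ∈ S u <;> by_cases k5 : a ∈ S v <;> simp [k1, k2, k3, k4, k5] <;> simp_all

/-- The elements of `S e` outside `S w`. -/
theorem f7 (S : Q → Finset A) (Z : Finset A) (e w y : Q) :
    ov S e y - ov S w y + ee S Z e w ≤ ((S e).card : ℤ) := by
  have : ov S e y + ee S Z e w ≤ ((S e).card : ℤ) + ov S w y := by
    unfold ov ee
    rw [ci, ci, ci, ci, ← sum_add_distrib, ← sum_add_distrib]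
    refine sum_le_sum fun a _ => ?_
    by_cases h1 : a ∈ Z <;> by_cases h2 : a ∈ S e <;> by_cases h3 : a ∈ S w <;>
      by_cases h4 : a ∈ S y <;> simp [h1, h2, h3, h4]
  linarith

end counts

section core

variable {P Q A : Type*} [Fintype P] [Fintype Q] [Fintype A] [DecidableEq P] [DecidableEq Q]
  [DecidableEq A]

/-- The situation of a violator of Hall's condition. -/
structure Bad (N : P → Finset Q) (S : Q → Finset A) (m : ℕ) (Z : Finset A) (X : Finset P) :
    Prop where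
  hN : ∀ p, (N p).card ≤ 2
  hM : ∀ q, (MM N q).card ≤ 2
  hS : ∀ q, (S q).card ≤ m
  hA : ∀ a, (univ.filter fun q => a ∈ S q).card ≤ m
  hopt : ∀ q u, pot N (fun x => S (Equiv.swap q u x)) ≤ pot N S
  hX : ∀ p, p ∈ X ↔ Z ⊆ (N p).biUnion S
  hm : m < Z.card

/-- The number of elements of `X` at `q`. -/
def DD (N : P → Finset Q) (X : Finset P) (q : Q) : ℕ := (X.filter fun p => q ∈ N p).card

variable {N : P → Finset Q} {S : Q → Finset A} {m : ℕ} {Z : Finset A} {X : Finset P}

theorem Bad.cc_le (h : Bad N S m Z X) (q : Q) : cc S Z q ≤ m :=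
  (WG.cc_le S Z q).trans (by exact_mod_cast h.hS q)

theorem Bad.two (h : Bad N S m Z X) {p : P} (hp : p ∈ X) : (N p).card = 2 := by
  have h1 := (h.hX p).mp hp
  have h2 := h.hN p
  have hm := h.hm
  rcases Nat.lt_or_ge (N p).card 1 with h0 | h0
  · rw [Nat.lt_one_iff, card_eq_zero] at h0
    rw [h0, biUnion_empty, subset_empty] at h1
    rw [h1, card_empty] at hm
    omega
  · rcases Nat.lt_or_ge (N p).card 2 with h3 | h3
    · obtain ⟨q, hq⟩ := card_eq_one.mp (show (N p).card = 1 by omega)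
      rw [hq, singleton_biUnion] at h1
      have h4 := card_le_card h1
      have h5 := h.hS q
      omega
    · omega

theorem Bad.at (h : Bad N S m Z X) {p : P} (hp : p ∈ X) {q : Q} (hq : q ∈ N p) :
    ∃ r, r ≠ q ∧ N p = {q, r} := by
  obtain ⟨a, b, hab, hN⟩ := card_eq_two.mp (h.two hp)
  rw [hN, mem_insert, mem_singleton] at hq
  rcases hq with rfl | rfl
  · exact ⟨b, hab.symm, hN⟩
  · exact ⟨a, hab, by rw [hN, pair_comm]⟩

theorem Bad.cov (h : Bad N S m Z X) {p : P} (hp : p ∈ X) {q r : Q} (hq : N p = {q, r}) :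
    Z ⊆ S q ∪ S r := by
  have h1 := (h.hX p).mp hp
  rw [hq] at h1
  intro a ha
  have h2 := h1 ha
  simpa [or_comm] using h2

theorem Bad.MM_two (h : Bad N S m Z X) {p : P} (hp : p ∈ X) {q : Q} (hq : q ∈ N p)
    (hD : DD N X q = 2) : ∃ p' ∈ X, p' ≠ p ∧ MM N q = {p, p'} := by
  have hsub : X.filter (fun p => q ∈ N p) ⊆ MM N q := by
    intro x hx
    rw [mem_filter] at hx
    exact mem_MM.mpr hx.2
  have h1 : X.filter (fun p => q ∈ N p) = MM N q :=
    eq_of_subset_of_card_le hsub (by rw [DD] at hD; rw [hD]; exact h.hM q)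
  obtain ⟨a, b, hab, hf⟩ := card_eq_two.mp hD
  have hpm : p ∈ X.filter (fun p => q ∈ N p) := mem_filter.mpr ⟨hp, hq⟩
  have ha : a ∈ X := (mem_filter.mp (hf ▸ mem_insert_self a {b} :
    a ∈ X.filter (fun p => q ∈ N p))).1
  have hb : b ∈ X := (mem_filter.mp (hf ▸ mem_insert_of_mem (mem_singleton_self b) :
    b ∈ X.filter (fun p => q ∈ N p))).1
  rw [hf, mem_insert, mem_singleton] at hpm
  rcases hpm with rfl | rfl
  · exact ⟨b, hb, hab.symm, by rw [← h1, hf]⟩
  · exact ⟨a, ha, hab, by rw [← h1, hf, pair_comm]⟩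

theorem TT_pair {p : P} {q u y : Q} (hN : N p = {q, y}) (hyq : y ≠ q) (hyu : y ≠ u) :
    TT N S p q u = ov S q y - ov S u y := by
  have : (N p).filter (fun z => z ≠ q ∧ z ≠ u) = {y} := by
    rw [hN]
    ext z
    simp only [mem_filter, mem_insert, mem_singleton]
    constructor
    · rintro ⟨rfl | rfl, h1, h2⟩
      · exact absurd rfl h1
      · rfl
    · rintro rfl
      exact ⟨Or.inr rfl, hyq, hyu⟩
  rw [TT, this, sum_singleton]

theorem TT_self {p : P} {q u : Q} (hN : N p = {q, u}) : TT N S p q u = 0 := by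
  have : (N p).filter (fun z => z ≠ q ∧ z ≠ u) = ∅ := by
    rw [hN]
    ext z
    simp only [mem_filter, mem_insert, mem_singleton, notMem_empty, iff_false]
    tauto
  rw [TT, this, sum_empty]

theorem DD_le (h : Bad N S m Z X) (q : Q) : DD N X q ≤ 2 := by
  refine le_trans (card_le_card ?_) (h.hM q)
  intro x hx
  rw [mem_filter] at hx
  exact mem_MM.mpr hx.2

theorem DD_pos {p : P} (hp : p ∈ X) {q : Q} (hq : q ∈ N p) : 1 ≤ DD N X q :=
  card_pos.mpr ⟨p, mem_filter.mpr ⟨hp, hq⟩⟩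

/-- A non-twin of `X` with degree two at both ends. -/
theorem star1 (h : Bad N S m Z X) {p : P} (hp : p ∈ X) {q r : Q} (hqr : q ≠ r)
    (hNp : N p = {q, r}) (hq : DD N X q = 2) (hr : DD N X r = 2)
    (htw : ∀ p', p' ≠ p → N p' ≠ N p) : 2 * (Z.card : ℤ) - m ≤ cc S Z q + cc S Z r := by
  have hqN : q ∈ N p := by rw [hNp]; exact mem_insert_self _ _
  have hrN : r ∈ N p := by rw [hNp]; exact mem_insert_of_mem (mem_singleton_self _)
  obtain ⟨p1, hp1, hne1, hM1⟩ := h.MM_two hp hqN hq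
  obtain ⟨p2, hp2, hne2, hM2⟩ := h.MM_two hp hrN hr
  have hq1 : q ∈ N p1 := mem_MM.mp (by rw [hM1]; exact mem_insert_of_mem (mem_singleton_self _))
  have hr2 : r ∈ N p2 := mem_MM.mp (by rw [hM2]; exact mem_insert_of_mem (mem_singleton_self _))
  obtain ⟨y, hyq, hN1⟩ := h.at hp1 hq1
  obtain ⟨w, hwr, hN2⟩ := h.at hp2 hr2
  have hyr : y ≠ r := by
    rintro rfl
    exact htw p1 hne1 (by rw [hN1, hNp])
  have hwq : w ≠ q := by
    rintro rfl
    exact htw p2 hne2 (by rw [hN2, hNp, pair_comm])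
  have hs := star hqr (h.hopt q r)
  rw [hM1, hM2, sum_pair hne1.symm, sum_pair hne2.symm, TT_self hNp,
    TT_self (show N p = {r, q} by rw [hNp, pair_comm]), TT_pair hN1 hyq hyr,
    TT_pair hN2 hwr hwq] at hs
  have hZ := h.cov hp hNp
  have hZ1 := h.cov hp1 hN1
  have hZ2 := h.cov hp2 hN2
  have e1 := f2 hZ1
  have e2 := f2 hZ2
  have e3 := f3 hZ1 r
  have e4 := f3 hZ2 q
  have e5 := f1 hZ
  have e6 := ee_comm S Z q r
  have e7 : ((S y).card : ℤ) ≤ m := by exact_mod_cast h.hS y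
  have e8 : ((S w).card : ℤ) ≤ m := by exact_mod_cast h.hS w
  linarith

/-- The cost of a vertex. -/
def phi (N : P → Finset Q) (X : Finset P) (S : Q → Finset A) (Z : Finset A) (q : Q) : ℤ :=
  if DD N X q = 1 then 2 * cc S Z q else cc S Z q

/-- The cost of an element of `X`. -/
def psi (N : P → Finset Q) (X : Finset P) (S : Q → Finset A) (Z : Finset A) (p : P) : ℤ :=
  ∑ q ∈ N p, phi N X S Z q

theorem sum_cc (h : Bad N S m Z X) : ∑ q, cc S Z q ≤ m * (Z.card : ℤ) := by
  have h1 : ∀ q : Q, cc S Z q = ∑ a ∈ Z, if a ∈ S q then 1 else 0 := by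
    intro q
    rw [cc, sum_ite_mem, sum_const, nsmul_eq_mul, mul_one]
  simp only [h1]
  rw [sum_comm]
  calc ∑ a ∈ Z, ∑ q : Q, (if a ∈ S q then (1 : ℤ) else 0) ≤ ∑ a ∈ Z, (m : ℤ) := by
        refine sum_le_sum fun a _ => ?_
        have h2 := h.hA a
        rw [sum_boole]
        exact_mod_cast h2
    _ = m * (Z.card : ℤ) := by rw [sum_const, nsmul_eq_mul]; ring

theorem sum_psi (h : Bad N S m Z X) : ∑ p ∈ X, psi N X S Z p ≤ 2 * (m * (Z.card : ℤ)) := by
  have h1 : ∑ p ∈ X, psi N X S Z p = ∑ q, (DD N X q : ℤ) * phi N X S Z q := by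
    have h2 : ∀ p ∈ X, psi N X S Z p = ∑ q, if q ∈ N p then phi N X S Z q else 0 := by
      intro p _
      rw [psi, sum_ite_mem, univ_inter]
    rw [sum_congr rfl h2, sum_comm]
    refine sum_congr rfl fun q _ => ?_
    rw [← sum_filter, sum_const, nsmul_eq_mul]
    rfl
  have h3 : ∑ q, (DD N X q : ℤ) * phi N X S Z q ≤ ∑ q, 2 * cc S Z q := by
    refine sum_le_sum fun q _ => ?_
    have h4 := DD_le h q
    have h5 := cc_nonneg S Z q
    unfold phi
    generalize DD N X q = d at *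
    interval_cases d
    · simpa using h5
    · simp
    · simp
  rw [h1]
  refine h3.trans ?_
  rw [← mul_sum]
  linarith [sum_cc h]

theorem psi_pair {p : P} {q r : Q} (hqr : q ≠ r) (hN : N p = {q, r}) :
    psi N X S Z p = phi N X S Z q + phi N X S Z r := by
  rw [psi, hN, sum_pair hqr]

theorem psi_ge (h : Bad N S m Z X) {p : P} (hp : p ∈ X) : (Z.card : ℤ) ≤ psi N X S Z p := by
  obtain ⟨q, r, hqr, hN⟩ := card_eq_two.mp (h.two hp)
  rw [psi_pair hqr hN]
  have h1 := f1 (h.cov hp hN)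
  have h2 : 0 ≤ ee S Z q r := by unfold ee; positivity
  have h3 := cc_nonneg S Z q
  have h4 := cc_nonneg S Z r
  unfold phi
  split_ifs <;> linarith

theorem psi_ge' (h : Bad N S m Z X) {p : P} (hp : p ∈ X)
    (htw : ∀ p', p' ≠ p → N p' ≠ N p) : 2 * (Z.card : ℤ) - m ≤ psi N X S Z p := by
  obtain ⟨q, r, hqr, hN⟩ := card_eq_two.mp (h.two hp)
  rw [psi_pair hqr hN]
  have h1 := f1 (h.cov hp hN)
  have h2 : 0 ≤ ee S Z q r := by unfold ee; positivity
  have h3 := h.cc_le q
  have h4 := h.cc_le r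
  have hq := DD_le h q
  have hr := DD_le h r
  have hq1 : 1 ≤ DD N X q := DD_pos hp (by rw [hN]; exact mem_insert_self _ _)
  have hr1 : 1 ≤ DD N X r :=
    DD_pos hp (by rw [hN]; exact mem_insert_of_mem (mem_singleton_self _))
  have hm : (0 : ℤ) ≤ m := by positivity
  unfold phi
  split_ifs with k1 k2 k2
  · linarith
  · linarith
  · linarith
  · exact star1 h hp hqr hN (by omega) (by omega) htw

/-- Two pairs of twins. -/
theorem twins (h : Bad N S m Z X) {p p' t t' : P} (hp : p ∈ X) (hp' : p' ∈ X) (ht : t ∈ X)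
    (ht' : t' ∈ X) (hpp : p ≠ p') (htt : t ≠ t') (hN : N p = N p') (hNt : N t = N t')
    (h1 : t ≠ p) (h2 : t ≠ p') : 3 * (Z.card : ℤ) ≤ 4 * m := by
  have key : ∀ {a b : P} {x : Q}, a ≠ b → x ∈ N a → N a = N b → MM N x = {a, b} := by
    intro a b x hab hx hNab
    have hsub : ({a, b} : Finset P) ⊆ MM N x := by
      intro c hc
      rw [mem_insert, mem_singleton] at hc
      rcases hc with rfl | rfl
      · exact mem_MM.mpr hx
      · exact mem_MM.mpr (hNab ▸ hx)
    exact (eq_of_subset_of_card_le hsub (by rw [card_pair hab]; exact h.hM x)).symm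
  obtain ⟨q, r, hqr, hNp⟩ := card_eq_two.mp (h.two hp)
  obtain ⟨u, v, huv, hNu⟩ := card_eq_two.mp (h.two ht)
  have hqN : q ∈ N p := by rw [hNp]; exact mem_insert_self _ _
  have hrN : r ∈ N p := by rw [hNp]; exact mem_insert_of_mem (mem_singleton_self _)
  have huN : u ∈ N t := by rw [hNu]; exact mem_insert_self _ _
  have hvN : v ∈ N t := by rw [hNu]; exact mem_insert_of_mem (mem_singleton_self _)
  have hMq := key hpp hqN hN
  have hMr := key hpp hrN hN
  have hMu := key htt huN hNt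
  have hMv := key htt hvN hNt
  have hne : ∀ {x y : Q}, MM N x = {p, p'} → y ∈ N t → y ≠ x := by
    rintro x y hx hy rfl
    have : t ∈ MM N y := mem_MM.mpr hy
    rw [hx, mem_insert, mem_singleton] at this
    tauto
  have huq := hne hMq huN
  have hur := hne hMr huN
  have hvq := hne hMq hvN
  have hvr := hne hMr hvN
  have hNp' : N p' = {q, r} := by rw [← hN, hNp]
  have hNt' : N t' = {u, v} := by rw [← hNt, hNu]
  have hNv : N t = {v, u} := by rw [hNu, pair_comm]
  have hNv' : N t' = {v, u} := by rw [hNt', pair_comm]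
  have s1 := star huq.symm (h.hopt q u)
  have s2 := star hvq.symm (h.hopt q v)
  rw [hMq, hMu, sum_pair hpp, sum_pair htt, TT_pair hNp hqr.symm hur.symm,
    TT_pair hNp' hqr.symm hur.symm, TT_pair hNu huv.symm hvq, TT_pair hNt' huv.symm hvq] at s1
  rw [hMq, hMv, sum_pair hpp, sum_pair htt, TT_pair hNp hqr.symm hvr.symm,
    TT_pair hNp' hqr.symm hvr.symm, TT_pair hNv huv huq, TT_pair hNv' huv huq] at s2
  have hZ := h.cov hp hNp
  have hZ' := h.cov ht hNu
  have hZr : Z ⊆ S r ∪ S q := by rw [union_comm]; exact hZ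
  have hZv : Z ⊆ S v ∪ S u := by rw [union_comm]; exact hZ'
  have e1 := f2 hZ
  have e2 := f2 hZr
  have e3 := f2 hZ'
  have e4 := f2 hZv
  have e5 := f6 hZ hZ'
  have e6 := f1 hZ'
  have c1 : ((S q).card : ℤ) ≤ m := by exact_mod_cast h.hS q
  have c2 : ((S r).card : ℤ) ≤ m := by exact_mod_cast h.hS r
  have c3 : ((S u).card : ℤ) ≤ m := by exact_mod_cast h.hS u
  have c4 : ((S v).card : ℤ) ≤ m := by exact_mod_cast h.hS v
  have o1 := ov_comm S r q
  have o2 := ov_comm S v u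
  have o3 := ov_comm S u r
  have o4 := ov_comm S v r
  have l1 := ee_le S Z q u
  have l2 := ee_le S Z q v
  have l3 := ee_le S Z r u
  have l4 := ee_le S Z r v
  linarith

end core

end Pool.Agent.Helper75.WG
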