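import Pool.Agent.Helper75.WG.Core

/-!
# The violator without twins (MP_abf47a_co)
-/

set_option autoImplicit false

namespace Pool.Agent.Helper75.WG

open Finset

theorem sum_pair_ge {ι : Type*} [DecidableEq ι] (C : Finset ι) (f : ι → ℤ) (L : ℤ)
    (hC : 2 ≤ C.card) (h : ∀ u ∈ C, ∀ v ∈ C, u ≠ v → 2 * L ≤ f u + f v) :
    (C.card : ℤ) * L ≤ ∑ u ∈ C, f u := by
  have h1 : ∀ u ∈ C, ((C.card : ℤ) - 1) * (2 * L) ≤
      ((C.card : ℤ) - 1) * f u + (∑ v ∈ C, f v - f u) := by
    intro u hu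
    have h2 : ∑ _v ∈ C.erase u, (2 * L) ≤ ∑ v ∈ C.erase u, (f u + f v) :=
      sum_le_sum fun v hv => h u hu v (mem_of_mem_erase hv) (ne_of_mem_erase hv).symm
    rw [sum_const, nsmul_eq_mul, card_erase_of_mem hu, Nat.cast_sub (by omega), sum_add_distrib,
      sum_const, nsmul_eq_mul, card_erase_of_mem hu, Nat.cast_sub (by omega),
      sum_erase_eq_sub hu] at h2
    push_cast at h2
    exact h2
  have h3 := sum_le_sum h1
  rw [sum_const, nsmul_eq_mul, sum_add_distrib, ← mul_sum, sum_sub_distrib, sum_const,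
    nsmul_eq_mul] at h3
  have h4 : (0 : ℤ) < 2 * ((C.card : ℤ) - 1) := by
    have : (2 : ℤ) ≤ C.card := by exact_mod_cast hC
    linarith
  refine le_of_mul_le_mul_left ?_ h4
  linarith

section free

variable {P Q A : Type*} [Fintype P] [Fintype Q] [Fintype A] [DecidableEq P] [DecidableEq Q]
  [DecidableEq A]
variable {N : P → Finset Q} {S : Q → Finset A} {m : ℕ} {Z : Finset A} {X : Finset P}

theorem TT_le (h : Bad N S m Z X) {p : P} {e : Q} (he : e ∈ N p) (w : Q) :
    TT N S p e w ≤ m - ee S Z e w := by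
  have h0 : ((S e).card : ℤ) ≤ m := by exact_mod_cast h.hS e
  have h1 : ee S Z e w ≤ m := by
    have h2 : ee S Z e w ≤ cc S Z e := by
      unfold ee cc
      exact_mod_cast card_le_card (inter_subset_inter_left inter_subset_left)
    exact h2.trans (h.cc_le e)
  have hcard : ((N p).filter (fun y => y ≠ e ∧ y ≠ w)).card ≤ 1 := by
    have h3 : (N p).filter (fun y => y ≠ e ∧ y ≠ w) ⊆ (N p).erase e := by
      intro y hy
      rw [mem_filter] at hy
      exact mem_erase.mpr ⟨hy.2.1, hy.1⟩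
    have h4 := card_le_card h3
    rw [card_erase_of_mem he] at h4
    have h5 := h.hN p
    omega
  rw [TT]
  rcases Nat.lt_or_ge ((N p).filter (fun y => y ≠ e ∧ y ≠ w)).card 1 with h6 | h6
  · rw [Nat.lt_one_iff, card_eq_zero] at h6
    rw [h6, sum_empty]
    linarith
  · obtain ⟨y, hy⟩ := card_eq_one.mp (le_antisymm hcard h6)
    rw [hy, sum_singleton]
    linarith [f7 S Z e w y]

theorem end_sum (h : Bad N S m Z X) {p : P} {e : Q} (he : e ∈ N p) (w : Q) :
    ∑ x ∈ MM N e, TT N S x e w ≤ TT N S p e w + (m - ee S Z e w) := by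
  have hp : p ∈ MM N e := mem_MM.mpr he
  rw [← add_sum_erase _ _ hp]
  have h1 : ee S Z e w ≤ m := by
    have h2 : ee S Z e w ≤ cc S Z e := by
      unfold ee cc
      exact_mod_cast card_le_card (inter_subset_inter_left inter_subset_left)
    exact h2.trans (h.cc_le e)
  have h3 : ∑ x ∈ (MM N e).erase p, TT N S x e w ≤ ∑ _x ∈ (MM N e).erase p, (m - ee S Z e w) :=
    sum_le_sum fun x hx => TT_le h (mem_MM.mp (mem_of_mem_erase hx)) w
  rw [sum_const, nsmul_eq_mul, card_erase_of_mem hp] at h3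
  have h4 := h.hM e
  have h5 : (((MM N e).card - 1 : ℕ) : ℤ) ≤ 1 := by
    have : (MM N e).card - 1 ≤ 1 := by omega
    exact_mod_cast this
  have h6 : (((MM N e).card - 1 : ℕ) : ℤ) * (m - ee S Z e w) ≤ 1 * (m - ee S Z e w) :=
    mul_le_mul_of_nonneg_right h5 (by linarith)
  linarith

/-- A vertex with two elements of `X` whose other ends have degree one. -/
structure Cen (N : P → Finset Q) (X : Finset P) (q : Q) (p1 p2 : P) (e1 e2 : Q) : Prop where
  m1 : p1 ∈ X
  m2 : p2 ∈ X
  ne : p1 ≠ p2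
  MMq : MM N q = {p1, p2}
  n1 : N p1 = {q, e1}
  n2 : N p2 = {q, e2}
  ne1 : e1 ≠ q
  ne2 : e2 ≠ q
  dq : DD N X q = 2
  d1 : DD N X e1 = 1
  d2 : DD N X e2 = 1

theorem DD_one {e : Q} (he : DD N X e = 1) {p p' : P} (hp : p ∈ X) (hp' : p' ∈ X) (h1 : e ∈ N p)
    (h2 : e ∈ N p') : p = p' := by
  rw [DD, card_eq_one] at he
  obtain ⟨a, ha⟩ := he
  have h3 : p ∈ X.filter fun p => e ∈ N p := mem_filter.mpr ⟨hp, h1⟩
  have h4 : p' ∈ X.filter fun p => e ∈ N p := mem_filter.mpr ⟨hp', h2⟩
  rw [ha, mem_singleton] at h3 h4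
  rw [h3, h4]

/-- One end of the other center. -/
theorem cen_end (h : Bad N S m Z X) {q u : Q} {p1 p2 p3 : P} {e1 e2 e3 : Q}
    (hq : Cen N X q p1 p2 e1 e2) (hqu : q ≠ u) (h3 : p3 ∈ X) (hn3 : N p3 = {u, e3})
    (hne3 : e3 ≠ u) (hd3 : DD N X e3 = 1) :
    0 ≤ 4 * (m : ℤ) - 3 * Z.card + (cc S Z e1 + cc S Z e2) - cc S Z e3 - cc S Z q +
      2 * ee S Z e3 q := by
  have he3 : e3 ∈ N p3 := by rw [hn3]; exact mem_insert_of_mem (mem_singleton_self _)
  have hqe3 : q ≠ e3 := by
    rintro rfl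
    have := hq.dq
    omega
  have hq3 : q ∉ N p3 := by
    rw [hn3, mem_insert, mem_singleton]
    tauto
  have hq1 : q ∈ N p1 := by rw [hq.n1]; exact mem_insert_self _ _
  have hq2 : q ∈ N p2 := by rw [hq.n2]; exact mem_insert_self _ _
  have h13 : e1 ≠ e3 := by
    rintro rfl
    have := DD_one hd3 hq.m1 h3 (by rw [hq.n1]; exact mem_insert_of_mem (mem_singleton_self _)) he3
    rw [this] at hq1
    exact hq3 hq1
  have h23 : e2 ≠ e3 := by
    rintro rfl
    have := DD_one hd3 hq.m2 h3 (by rw [hq.n2]; exact mem_insert_of_mem (mem_singleton_self _)) he3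
    rw [this] at hq2
    exact hq3 hq2
  have hs := star hqe3 (h.hopt q e3)
  have hn3' : N p3 = {e3, u} := by rw [hn3, pair_comm]
  have hend := end_sum h he3 q
  rw [hq.MMq, sum_pair hq.ne, TT_pair hq.n1 hq.ne1 h13, TT_pair hq.n2 hq.ne2 h23] at hs
  rw [TT_pair hn3' hne3.symm hqu.symm] at hend
  have z1 := h.cov hq.m1 hq.n1
  have z2 := h.cov hq.m2 hq.n2
  have z3 := h.cov h3 hn3
  have z1' : Z ⊆ S e1 ∪ S q := by rw [union_comm]; exact z1
  have z2' : Z ⊆ S e2 ∪ S q := by rw [union_comm]; exact z2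
  have z3' : Z ⊆ S e3 ∪ S u := by rw [union_comm]; exact z3
  have a1 := f2 z1'
  have a2 := f2 z2'
  have a3 := f2 z3'
  have b1 := f3 z1 e3
  have b2 := f3 z2 e3
  have b3 := f3 z3' q
  have o1 := ov_comm S e1 q
  have o2 := ov_comm S e2 q
  have o3 := ee_comm S Z q e3
  have s1 : ((S q).card : ℤ) ≤ m := by exact_mod_cast h.hS q
  have s2 : ((S u).card : ℤ) ≤ m := by exact_mod_cast h.hS u
  linarith

/-- Two centers. -/
theorem cen_cen (h : Bad N S m Z X) {q u : Q} {p1 p2 p3 p4 : P} {e1 e2 e3 e4 : Q}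
    (hq : Cen N X q p1 p2 e1 e2) (hu : Cen N X u p3 p4 e3 e4) (hqu : q ≠ u) :
    0 ≤ 4 * ((m : ℤ) - Z.card) + (cc S Z e1 + cc S Z e2) + (cc S Z e3 + cc S Z e4) -
      2 * cc S Z q - 2 * cc S Z u + 4 * ee S Z q u := by
  have ne : ∀ {x y : Q}, DD N X x = 1 → DD N X y = 2 → x ≠ y := by
    rintro x y h1 h2 rfl
    omega
  have hs := star hqu (h.hopt q u)
  rw [hq.MMq, hu.MMq, sum_pair hq.ne, sum_pair hu.ne, TT_pair hq.n1 hq.ne1 (ne hq.d1 hu.dq),
    TT_pair hq.n2 hq.ne2 (ne hq.d2 hu.dq), TT_pair hu.n1 hu.ne1 (ne hu.d1 hq.dq),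
    TT_pair hu.n2 hu.ne2 (ne hu.d2 hq.dq)] at hs
  have z1 := h.cov hq.m1 hq.n1
  have z2 := h.cov hq.m2 hq.n2
  have z3 := h.cov hu.m1 hu.n1
  have z4 := h.cov hu.m2 hu.n2
  have z1' : Z ⊆ S e1 ∪ S q := by rw [union_comm]; exact z1
  have z2' : Z ⊆ S e2 ∪ S q := by rw [union_comm]; exact z2
  have z3' : Z ⊆ S e3 ∪ S u := by rw [union_comm]; exact z3
  have z4' : Z ⊆ S e4 ∪ S u := by rw [union_comm]; exact z4
  have a1 := f2 z1'
  have a2 := f2 z2'
  have a3 := f2 z3'
  have a4 := f2 z4'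
  have b1 := f3 z1 u
  have b2 := f3 z2 u
  have b3 := f3 z3 q
  have b4 := f3 z4 q
  have o1 := ov_comm S e1 q
  have o2 := ov_comm S e2 q
  have o3 := ov_comm S e3 u
  have o4 := ov_comm S e4 u
  have o5 := ee_comm S Z u q
  have s1 : ((S q).card : ℤ) ≤ m := by exact_mod_cast h.hS q
  have s2 : ((S u).card : ℤ) ≤ m := by exact_mod_cast h.hS u
  linarith

theorem cen_pair (h : Bad N S m Z X) {q u : Q} {p1 p2 p3 p4 : P} {e1 e2 e3 e4 : Q}
    (hq : Cen N X q p1 p2 e1 e2) (hu : Cen N X u p3 p4 e3 e4) (hqu : q ≠ u) :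
    14 * (Z.card : ℤ) - 12 * m ≤ 2 * (cc S Z e3 + cc S Z e4) + 2 * cc S Z u +
      3 * (cc S Z e1 + cc S Z e2) := by
  have h1 := cen_cen h hq hu hqu
  have h2 := cen_end h hq hqu hu.m1 hu.n1 hu.ne1 hu.d1
  have h3 := cen_end h hq hqu hu.m2 hu.n2 hu.ne2 hu.d2
  have t1 := f5 S Z e3 q u
  have t2 := f5 S Z e4 q u
  have g1 := f1 (h.cov hu.m1 hu.n1)
  have g2 := f1 (h.cov hu.m2 hu.n2)
  have o1 := ee_comm S Z u e3
  have o2 := ee_comm S Z u e4
  linarith

/-- A pair of twins and a further element of `X`. -/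
theorem twin_arc (h : Bad N S m Z X) {p p' t : P} (hp : p ∈ X) (ht : t ∈ X) (hpp : p ≠ p')
    (hN : N p = N p') (h1 : t ≠ p) (h2 : t ≠ p') : 4 * (Z.card : ℤ) ≤ 7 * m := by
  have key : ∀ {x : Q}, x ∈ N p → MM N x = {p, p'} := by
    intro x hx
    have hsub : ({p, p'} : Finset P) ⊆ MM N x := by
      intro c hc
      rw [mem_insert, mem_singleton] at hc
      rcases hc with rfl | rfl
      · exact mem_MM.mpr hx
      · exact mem_MM.mpr (hN ▸ hx)
    exact (eq_of_subset_of_card_le hsub (by rw [card_pair hpp]; exact h.hM x)).symm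
  obtain ⟨q, r, hqr, hNp⟩ := card_eq_two.mp (h.two hp)
  obtain ⟨u, v, huv, hNu⟩ := card_eq_two.mp (h.two ht)
  have hqN : q ∈ N p := by rw [hNp]; exact mem_insert_self _ _
  have hrN : r ∈ N p := by rw [hNp]; exact mem_insert_of_mem (mem_singleton_self _)
  have huN : u ∈ N t := by rw [hNu]; exact mem_insert_self _ _
  have hvN : v ∈ N t := by rw [hNu]; exact mem_insert_of_mem (mem_singleton_self _)
  have hMq := key hqN
  have hMr := key hrN
  have hne : ∀ {x y : Q}, MM N x = {p, p'} → y ∈ N t → y ≠ x := by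
    rintro x y hx hy rfl
    have : t ∈ MM N y := mem_MM.mpr hy
    rw [hx, mem_insert, mem_singleton] at this
    tauto
  have huq := hne hMq huN
  have hur := hne hMr huN
  have hvq := hne hMq hvN
  have hvr := hne hMr hvN
  have hNp' : N p' = {q, r} := by rw [← hN, hNp]
  have hNr : N p = {r, q} := by rw [hNp, pair_comm]
  have hNr' : N p' = {r, q} := by rw [hNp', pair_comm]
  have s1 := star huq.symm (h.hopt q u)
  have s2 := star hur.symm (h.hopt r u)
  have g1 := end_sum h huN q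
  have g2 := end_sum h huN r
  rw [hMq, sum_pair hpp, TT_pair hNp hqr.symm hur.symm, TT_pair hNp' hqr.symm hur.symm] at s1
  rw [hMr, sum_pair hpp, TT_pair hNr hqr huq.symm, TT_pair hNr' hqr huq.symm] at s2
  rw [TT_pair hNu huv.symm hvq] at g1
  rw [TT_pair hNu huv.symm hvr] at g2
  have hZ := h.cov hp hNp
  have hZr : Z ⊆ S r ∪ S q := by rw [union_comm]; exact hZ
  have hZu := h.cov ht hNu
  have e1 := f2 hZ
  have e2 := f2 hZr
  have e3 := f2 hZu
  have e4 := f3 hZ u
  have e5 := f3 hZr u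
  have e6 := f3 hZu q
  have e7 := f3 hZu r
  have e8 := f1 hZ
  have e9 := f5 S Z q u r
  have c1 : ((S q).card : ℤ) ≤ m := by exact_mod_cast h.hS q
  have c2 : ((S r).card : ℤ) ≤ m := by exact_mod_cast h.hS r
  have c3 : ((S v).card : ℤ) ≤ m := by exact_mod_cast h.hS v
  have d1 := h.cc_le q
  have d2 := h.cc_le r
  have o1 := ov_comm S r q
  have o3 := ee_comm S Z u q
  have o4 := ee_comm S Z u r
  linarith

/-- The bound when `X` has few twins. -/
theorem bound_few (h : Bad N S m Z X) (s : ℕ) (Y : Finset P)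
    (hY : Y = X.filter fun p => ∃ p', p' ≠ p ∧ N p' = N p)
    (hYs : 44 * m + 3 * Y.card ≤ 15 * s) (hms : 3 * m ≤ s) (hz2 : Z.card ≤ 2 * m) : X.card + Z.card ≤ s := by
  have hm := h.hm
  have hm1 : 1 ≤ m := by omega
  by_contra hcon
  push Not at hcon
  have h1 := sum_psi h
  have hYm : ∀ p, p ∈ Y ↔ p ∈ X ∧ ∃ p', p' ≠ p ∧ N p' = N p := fun p => by rw [hY, mem_filter]
  have hYX : Y ⊆ X := fun p hp => ((hYm p).mp hp).1
  have htwX : ∀ p ∈ X, ∀ p', N p' = N p → p' ∈ X := by
    intro p hp p' hpp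
    rw [h.hX, hpp]
    exact (h.hX p).mp hp
  have hntw : ∀ p ∈ X, p ∉ Y → ∀ p', p' ≠ p → N p' ≠ N p := fun p hp hpY p' hp' hN =>
    hpY ((hYm p).mpr ⟨hp, p', hp', hN⟩)
  have hXYc : ((X \ Y).card : ℤ) = X.card - Y.card := by
    rw [card_sdiff_of_subset hYX, Nat.cast_sub (card_le_card hYX)]
  have hsumY : (Y.card : ℤ) * Z.card + ∑ p ∈ X \ Y, psi N X S Z p ≤ ∑ p ∈ X, psi N X S Z p := by
    rw [← sum_sdiff hYX, add_comm]
    refine add_le_add_right ?_ _
    rw [← nsmul_eq_mul, ← sum_const]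
    exact sum_le_sum fun p hp => psi_ge h (hYX hp)
  have hbasic : (Y.card : ℤ) * Z.card + ((X.card : ℤ) - Y.card) * (2 * Z.card - m) ≤
      2 * (m * (Z.card : ℤ)) := by
    have h2 : ((X.card : ℤ) - Y.card) * (2 * Z.card - m) ≤ ∑ p ∈ X \ Y, psi N X S Z p := by
      rw [← hXYc, ← nsmul_eq_mul, ← sum_const]
      exact sum_le_sum fun p hp => psi_ge' h (mem_sdiff.mp hp).1
        (hntw p (mem_sdiff.mp hp).1 (mem_sdiff.mp hp).2)
    linarith
  rcases Nat.lt_or_ge 2 Y.card with h3 | h3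
  · -- two pairs of twins
    obtain ⟨p, hpY⟩ := card_pos.mp (by omega : 0 < Y.card)
    obtain ⟨hp, p', hpp', hNpp'⟩ := (hYm p).mp hpY
    obtain ⟨t, htY, ht⟩ := exists_mem_notMem_of_card_lt_card
      (show ({p, p'} : Finset P).card < Y.card by rw [card_pair hpp'.symm]; exact h3)
    obtain ⟨htX, t', htt', hNtt'⟩ := (hYm t).mp htY
    rw [mem_insert, mem_singleton, not_or] at ht
    have h4 := twins h hp (htwX p hp p' hNpp') htX (htwX t htX t' hNtt')
      hpp'.symm htt'.symm hNpp'.symm hNtt'.symm ht.1 ht.2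
    zify at hcon hm hm1 hz2 hYs hms
    generalize (X.card : ℤ) = x at *
    generalize (Z.card : ℤ) = z at *
    generalize (Y.card : ℤ) = y at *
    generalize (m : ℤ) = k at *
    generalize (s : ℤ) = σ at *
    have i1 : (σ + 1 - z) * (2 * z - k) ≤ x * (2 * z - k) :=
      mul_le_mul_of_nonneg_right (by linarith) (by linarith)
    have i2 : 0 ≤ (z - k) * (15 * σ - 44 * k - 3 * y) := mul_nonneg (by linarith) (by linarith)
    have i3 : 0 ≤ (4 * k - 3 * z) * (σ - 3 * k) := mul_nonneg (by linarith) (by linarith)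
    have i4 : 0 ≤ (z - k) * (4 * k - 3 * z) := mul_nonneg (by linarith) (by linarith)
    nlinarith
  rcases Nat.lt_or_ge (3 * m) (2 * Z.card) with h32 | h32
  · have hno : ∀ p ∈ X, p ∉ Y → ∀ q ∈ N p, ∀ r ∈ N p, q ≠ r → DD N X q = 2 → DD N X r = 1 := by
      intro p hp hpY q hq r hr hqr h2
      have h3 := DD_le h r
      have h4 := DD_pos hp hr
      by_contra h5
      have hN : N p = {q, r} := by
        refine (eq_of_subset_of_card_le ?_ ?_).symm
        · intro x hx
          rw [mem_insert, mem_singleton] at hx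
          rcases hx with rfl | rfl
          · exact hq
          · exact hr
        · rw [card_pair hqr]
          exact h.hN p
      have h6 := star1 h hp hqr hN h2 (by omega) (hntw p hp hpY)
      have h7 := h.cc_le q
      have h8 := h.cc_le r
      omega
    obtain ⟨C, hC⟩ : ∃ C : Finset Q, C = univ.filter fun q => DD N X q = 2 ∧
      ∀ p ∈ MM N q, p ∉ Y := ⟨_, rfl⟩
    have hCm : ∀ q, q ∈ C ↔ DD N X q = 2 ∧ ∀ p ∈ MM N q, p ∉ Y := fun q => by
      rw [hC, mem_filter]
      simp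
    have hcen : ∀ q ∈ C, ∃ p1 p2 e1 e2, Cen N X q p1 p2 e1 e2 := by
      intro q hq
      obtain ⟨hq, hqY⟩ := (hCm q).mp hq
      have hq0 : 0 < (X.filter fun p => q ∈ N p).card := by
        rw [DD] at hq
        omega
      obtain ⟨p1, hp1⟩ := card_pos.mp hq0
      rw [mem_filter] at hp1
      obtain ⟨p2, hp2, hne, hMM⟩ := h.MM_two hp1.1 hp1.2 hq
      have hq2 : q ∈ N p2 :=
        mem_MM.mp (by rw [hMM]; exact mem_insert_of_mem (mem_singleton_self _))
      obtain ⟨e1, he1, hN1⟩ := h.at hp1.1 hp1.2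
      obtain ⟨e2, he2, hN2⟩ := h.at hp2 hq2
      refine ⟨p1, p2, e1, e2, hp1.1, hp2, hne.symm, hMM, hN1, hN2, he1, he2, hq, ?_, ?_⟩
      · exact hno p1 hp1.1 (hqY p1 (mem_MM.mpr hp1.2)) q hp1.2 e1 (by rw [hN1]; simp) he1.symm hq
      · exact hno p2 hp2 (hqY p2 (mem_MM.mpr hq2)) q hq2 e2 (by rw [hN2]; simp) he2.symm hq
    obtain ⟨X2, hX2⟩ : ∃ X2 : Finset P, X2 = C.biUnion (MM N) := ⟨_, rfl⟩
    have hX2X : X2 ⊆ X \ Y := by
      intro p hp
      rw [hX2, mem_biUnion] at hp
      obtain ⟨q, hq, hp⟩ := hp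
      have hpY := ((hCm q).mp hq).2 p hp
      obtain ⟨p1, p2, e1, e2, hc⟩ := hcen q hq
      rw [hc.MMq, mem_insert, mem_singleton] at hp
      rcases hp with rfl | rfl
      · exact mem_sdiff.mpr ⟨hc.m1, hpY⟩
      · exact mem_sdiff.mpr ⟨hc.m2, hpY⟩
    have hdisj : (C : Set Q).PairwiseDisjoint (MM N) := by
      intro q hq u hu hqu
      rw [Function.onFun, disjoint_left]
      intro p hp hp'
      have hpX : p ∈ X \ Y := hX2X (by
        rw [hX2, mem_biUnion]
        exact ⟨q, hq, hp⟩)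
      rw [mem_MM] at hp hp'
      rw [mem_sdiff] at hpX
      have h2 := hno p hpX.1 hpX.2 q hp u hp' hqu ((hCm q).mp hq).1
      have h3 := ((hCm u).mp hu).1
      omega
    have hcard : X2.card = 2 * C.card := by
      rw [hX2, card_biUnion hdisj, sum_const_nat (m := 2), mul_comm]
      intro q hq
      obtain ⟨p1, p2, e1, e2, hc⟩ := hcen q hq
      rw [hc.MMq, card_pair hc.ne]
    have hG : ∀ q p1 p2 e1 e2, Cen N X q p1 p2 e1 e2 →
        ∑ p ∈ MM N q, psi N X S Z p = 2 * (cc S Z q + (cc S Z e1 + cc S Z e2)) := by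
      intro q p1 p2 e1 e2 hc
      rw [hc.MMq, sum_pair hc.ne, psi_pair hc.ne1.symm hc.n1, psi_pair hc.ne2.symm hc.n2]
      unfold phi
      rw [hc.dq, hc.d1, hc.d2]
      simp only [OfNat.ofNat_ne_one, if_false, if_true]
      ring
    have hsum : (((X \ Y) \ X2).card : ℤ) * (2 * Z.card) +
        ∑ q ∈ C, ∑ p ∈ MM N q, psi N X S Z p ≤ ∑ p ∈ X \ Y, psi N X S Z p := by
      rw [← sum_sdiff hX2X]
      refine add_le_add ?_ ?_
      · rw [← nsmul_eq_mul, ← sum_const]
        refine sum_le_sum fun p hp => ?_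
        rw [mem_sdiff, mem_sdiff] at hp
        obtain ⟨q, r, hqr, hN⟩ := card_eq_two.mp (h.two hp.1.1)
        rw [psi_pair hqr hN]
        have hd : ∀ x ∈ N p, DD N X x = 1 := by
          intro x hx
          have h2 := DD_le h x
          have h3 := DD_pos hp.1.1 hx
          by_contra h4
          by_cases hxC : x ∈ C
          · refine hp.2 ?_
            rw [hX2, mem_biUnion]
            exact ⟨x, hxC, mem_MM.mpr hx⟩
          · rw [hCm, not_and] at hxC
            have h5 := hxC (by omega)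
            push Not at h5
            obtain ⟨p1, hp1, hp1Y⟩ := h5
            obtain ⟨hp1X, p2, hp21, hN21⟩ := (hYm p1).mp hp1Y
            have hsub : ({p1, p2} : Finset P) ⊆ MM N x := by
              intro c hc
              rw [mem_insert, mem_singleton] at hc
              rcases hc with rfl | rfl
              · exact hp1
              · rw [mem_MM, hN21]
                exact mem_MM.mp hp1
            have h6 := eq_of_subset_of_card_le hsub (by
              rw [card_pair hp21.symm]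
              exact h.hM x)
            have h7 : p ∈ MM N x := mem_MM.mpr hx
            rw [← h6, mem_insert, mem_singleton] at h7
            rcases h7 with rfl | rfl
            · exact hp.1.2 hp1Y
            · exact hp.1.2 ((hYm _).mpr ⟨hp.1.1, p1, hp21.symm, hN21.symm⟩)
        have hq := hd q (by rw [hN]; exact mem_insert_self _ _)
        have hr := hd r (by rw [hN]; exact mem_insert_of_mem (mem_singleton_self _))
        have h5 := f1 (h.cov hp.1.1 hN)
        have h6 : 0 ≤ ee S Z q r := by unfold ee; positivity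
        unfold phi
        rw [hq, hr]
        simp only [if_true]
        linarith
      · rw [hX2, sum_biUnion hdisj]
    have hXc : (((X \ Y) \ X2).card : ℤ) = X.card - Y.card - 2 * C.card := by
      rw [card_sdiff_of_subset hX2X, Nat.cast_sub (card_le_card hX2X), hcard, hXYc]
      push_cast
      ring
    rw [hXc] at hsum
    rcases Nat.lt_or_ge C.card 2 with hC2 | hC2
    · have h2 : ∑ q ∈ C, (2 * (2 * (Z.card : ℤ) - m)) ≤
          ∑ q ∈ C, ∑ p ∈ MM N q, psi N X S Z p := by
        refine sum_le_sum fun q hq => ?_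
        obtain ⟨p1, p2, e1, e2, hc⟩ := hcen q hq
        rw [hG q p1 p2 e1 e2 hc]
        have g1 := f1 (h.cov hc.m1 hc.n1)
        have g2 := f1 (h.cov hc.m2 hc.n2)
        have g3 : 0 ≤ ee S Z q e1 := by unfold ee; positivity
        have g4 : 0 ≤ ee S Z q e2 := by unfold ee; positivity
        have g5 := h.cc_le q
        linarith
      rw [sum_const, nsmul_eq_mul] at h2
      have hC0 : (0 : ℤ) ≤ C.card := by positivity
      have hC1 : (C.card : ℤ) ≤ 1 := by
        have : C.card ≤ 1 := by omega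
        exact_mod_cast this
      have hY0 : (0 : ℤ) ≤ Y.card := by positivity
      have hmZ : (m : ℤ) < Z.card := by exact_mod_cast hm
      have hm0 : (0 : ℤ) ≤ m := by positivity
      -- `2 z x ≤ 2 m z + y z + 2 c m`
      have h4 : 2 * ((Z.card : ℤ) * X.card) ≤
          2 * (m * (Z.card : ℤ)) + Y.card * Z.card + 2 * (C.card * m) := by
        have e1 : ((X.card : ℤ) - Y.card - 2 * C.card) * (2 * Z.card) =
          2 * (Z.card * X.card) - 2 * (Y.card * Z.card) - 4 * (C.card * Z.card) := by ring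
        have e2 : (C.card : ℤ) * (2 * (2 * (Z.card : ℤ) - m)) =
          4 * (C.card * Z.card) - 2 * (C.card * m) := by ring
        rw [e1] at hsum
        rw [e2] at h2
        linarith
      rcases Nat.eq_zero_or_pos Y.card with hy | hy
      · rw [hy] at h4
        have h5 : (X.card : ℤ) * Z.card < (m + 1) * Z.card := by
          have : (C.card : ℤ) * m ≤ 1 * m := mul_le_mul_of_nonneg_right hC1 hm0
          push_cast at h4
          linarith
        have h6 : (X.card : ℤ) < m + 1 := lt_of_mul_lt_mul_right h5 (by linarith)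
        omega
      · obtain ⟨p, hpY⟩ := card_pos.mp hy
        obtain ⟨hp, p', hpp', hNpp'⟩ := (hYm p).mp hpY
        have hp' := htwX p hp p' hNpp'
        have hp'Y : p' ∈ Y := (hYm p').mpr ⟨hp', p, hpp'.symm, hNpp'.symm⟩
        have hy2 : 2 ≤ Y.card := one_lt_card.mpr ⟨p, hpY, p', hp'Y, hpp'.symm⟩
        rcases Nat.lt_or_ge 2 X.card with hx | hx
        · obtain ⟨t, htX, ht⟩ := exists_mem_notMem_of_card_lt_card
            (show ({p, p'} : Finset P).card < X.card by rw [card_pair hpp'.symm]; exact hx)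
          rw [mem_insert, mem_singleton, not_or] at ht
          have h7 := twin_arc h hp htX hpp'.symm hNpp'.symm ht.1 ht.2
          have h5 : (X.card : ℤ) * Z.card < (m + 2) * Z.card := by
            have e1 : (C.card : ℤ) * m ≤ 1 * m := mul_le_mul_of_nonneg_right hC1 hm0
            have e2 : (Y.card : ℤ) * Z.card ≤ 2 * Z.card :=
              mul_le_mul_of_nonneg_right (by exact_mod_cast h3) (by linarith)
            linarith
          have h6 : (X.card : ℤ) < m + 2 := lt_of_mul_lt_mul_right h5 (by linarith)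
          omega
        · omega
    · have h2 : (C.card : ℤ) * (5 * Z.card - 3 * m) ≤
          ∑ q ∈ C, ∑ p ∈ MM N q, psi N X S Z p := by
        refine sum_pair_ge C _ _ hC2 fun q hq u hu hqu => ?_
        obtain ⟨p1, p2, e1, e2, hc⟩ := hcen q hq
        obtain ⟨p3, p4, e3, e4, hd⟩ := hcen u hu
        rw [hG q p1 p2 e1 e2 hc, hG u p3 p4 e3 e4 hd]
        have k1 := cen_pair h hc hd hqu
        have k2 := cen_pair h hd hc hqu.symm
        have g1 := f1 (h.cov hc.m1 hc.n1)
        have g2 := f1 (h.cov hc.m2 hc.n2)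
        have g3 := f1 (h.cov hd.m1 hd.n1)
        have g4 := f1 (h.cov hd.m2 hd.n2)
        have i1 : 0 ≤ ee S Z q e1 := by unfold ee; positivity
        have i2 : 0 ≤ ee S Z q e2 := by unfold ee; positivity
        have i3 : 0 ≤ ee S Z u e3 := by unfold ee; positivity
        have i4 : 0 ≤ ee S Z u e4 := by unfold ee; positivity
        linarith
      have h9 : 7 * (Z.card : ℤ) ≤ 12 * m := by
        obtain ⟨q, hq, u, hu, hqu⟩ := one_lt_card.mp hC2
        obtain ⟨p1, p2, e1, e2, hc⟩ := hcen q hq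
        obtain ⟨p3, p4, e3, e4, hd⟩ := hcen u hu
        have k1 := cen_pair h hc hd hqu
        have l1 := h.cc_le e1
        have l2 := h.cc_le e2
        have l3 := h.cc_le e3
        have l4 := h.cc_le e4
        have l5 := h.cc_le u
        linarith
      have hY0 : (0 : ℤ) ≤ Y.card := by positivity
      have hmZ : (m : ℤ) < Z.card := by exact_mod_cast hm
      have hm0 : (0 : ℤ) ≤ m := by positivity
      have hy2 : (Y.card : ℤ) ≤ 2 := by exact_mod_cast h3
      have hxs : 3 * (m : ℤ) + 1 ≤ X.card + Z.card := by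
        have : 3 * m + 1 ≤ X.card + Z.card := by omega
        exact_mod_cast this
      have h10 : (Y.card : ℤ) * Z.card + ((X.card : ℤ) - Y.card - 2 * C.card) * (2 * Z.card) +
          C.card * (5 * Z.card - 3 * m) ≤ 2 * (m * (Z.card : ℤ)) := by linarith
      have hXYC : (0 : ℤ) ≤ (X.card : ℤ) - Y.card - 2 * C.card := by
        rw [← hXc]
        positivity
      generalize (X.card : ℤ) = x at *
      generalize (Z.card : ℤ) = z at *
      generalize (Y.card : ℤ) = y at *
      generalize (C.card : ℤ) = c at *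
      generalize (m : ℤ) = k at *
      have j1 : (x - y - 2 * c) * (5 * z - 3 * k) ≤ (x - y - 2 * c) * (4 * z) :=
        mul_le_mul_of_nonneg_left (by linarith) hXYC
      have j2 : (x - y) * (5 * z - 3 * k) ≤ 4 * (k * z) - 2 * (y * z) := by linarith
      have j3 : y * (z - k) ≤ 2 * (z - k) := mul_le_mul_of_nonneg_right hy2 (by linarith)
      have j4 : x * (5 * z - 3 * k) ≤ 4 * (k * z) + 6 * (z - k) := by linarith
      have j5 : (3 * k + 1 - z) * (5 * z - 3 * k) ≤ x * (5 * z - 3 * k) :=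
        mul_le_mul_of_nonneg_right (by linarith) (by linarith)
      have j6 : 0 ≤ (9 * k - 5 * z) * (z - k) := mul_nonneg (by linarith) (by linarith)
      nlinarith
  · have hY0 : (0 : ℤ) ≤ Y.card := by positivity
    zify at hcon hm hm1 hz2 h32 hYs hms h3
    generalize (X.card : ℤ) = x at *
    generalize (Z.card : ℤ) = z at *
    generalize (Y.card : ℤ) = y at *
    generalize (m : ℤ) = k at *
    generalize (s : ℤ) = σ at *
    have i1 : (3 * k + 1 - z) * (2 * z - k) ≤ x * (2 * z - k) :=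
      mul_le_mul_of_nonneg_right (by linarith) (by linarith)
    have i2 : y * (z - k) ≤ 2 * (z - k) := mul_le_mul_of_nonneg_right h3 (by linarith)
    have i3 : 0 ≤ (3 * k - 2 * z) * (z - k) := mul_nonneg (by linarith) (by linarith)
    nlinarith

end free

end Pool.Agent.Helper75.WG
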