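import Pool.Agent.Helper75.WG.Free
import Pool.Agent.Helper75.WG.Bal

/-!
# Spanning subgraphs of maximum degree two (MP_abf47a_co)
-/

set_option autoImplicit false

namespace Pool.Agent.Helper75.WG

open Finset

/-- Placing `P` when the sets `S q` maximize the potential. -/
theorem place_opt {P Q A : Type*} [Fintype P] [Fintype Q] [Fintype A] [DecidableEq P]
    [DecidableEq Q] [DecidableEq A] (N : P → Finset Q) (S : Q → Finset A) (m s : ℕ)
    (hP : Fintype.card P = s) (hAs : Fintype.card A = s)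
    (hN : ∀ p, (N p).card ≤ 2) (hM : ∀ q, (MM N q).card ≤ 2) (hS : ∀ q, (S q).card ≤ m)
    (hA : ∀ a, (univ.filter fun q => a ∈ S q).card ≤ m)
    (hopt : ∀ q u, pot N (fun x => S (Equiv.swap q u x)) ≤ pot N S)
    (hcase : 10 * m ≤ 3 * s ∨ 3 * m ≤ s ∧ 44 * m + 3 * (univ.filter fun p =>
      (N p).card = 2 ∧ ∃ p', p' ≠ p ∧ N p' = N p).card ≤ 15 * s) :
    ∃ f : P → A, Function.Injective f ∧ ∀ p, ∀ q ∈ N p, f p ∉ S q := by
  by_contra hcon
  have h1 : ¬ ∃ f : P → A, Function.Injective f ∧ ∀ p, f p ∈ ((N p).biUnion S)ᶜ := by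
    rintro ⟨f, hf, hf'⟩
    refine hcon ⟨f, hf, fun p q hq hfq => ?_⟩
    have := hf' p
    rw [mem_compl, mem_biUnion] at this
    exact this ⟨q, hq, hfq⟩
  rw [← all_card_le_biUnion_card_iff_exists_injective] at h1
  push Not at h1
  obtain ⟨X0, hX0⟩ := h1
  obtain ⟨Z, hZ⟩ : ∃ Z : Finset A, Z = (X0.biUnion fun p => ((N p).biUnion S)ᶜ)ᶜ := ⟨_, rfl⟩
  obtain ⟨X, hX⟩ : ∃ X : Finset P, X = univ.filter fun p => Z ⊆ (N p).biUnion S := ⟨_, rfl⟩
  have hXm : ∀ p, p ∈ X ↔ Z ⊆ (N p).biUnion S := fun p => by rw [hX, mem_filter]; simp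
  have h2 : X0 ⊆ X := by
    intro p hp
    rw [hXm]
    intro a ha
    rw [hZ, mem_compl, mem_biUnion] at ha
    by_contra h3
    exact ha ⟨p, hp, mem_compl.mpr h3⟩
  have h3 := card_le_card h2
  have h4 : Z.card + (X0.biUnion fun p => ((N p).biUnion S)ᶜ).card = s := by
    rw [hZ, card_compl, hAs]
    have := card_le_univ (X0.biUnion fun p => ((N p).biUnion S)ᶜ)
    rw [hAs] at this
    omega
  have h5 : X.card ≤ s := by rw [← hP]; exact card_le_univ X
  have hz0 : 0 < Z.card := by omega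
  have hx2 : X.card ≤ 2 * m := by
    obtain ⟨a, ha⟩ := card_pos.mp hz0
    have h6 : X ⊆ (univ.filter fun q => a ∈ S q).biUnion (MM N) := by
      intro p hp
      have h7 := (hXm p).mp hp ha
      rw [mem_biUnion] at h7 ⊢
      obtain ⟨q, hq, haq⟩ := h7
      exact ⟨q, mem_filter.mpr ⟨mem_univ _, haq⟩, mem_MM.mpr hq⟩
    have h8 := card_biUnion_le_card_mul (univ.filter fun q => a ∈ S q) (MM N) 2
      (fun q _ => hM q)
    have h9 := card_le_card h6
    have h10 := hA a
    omega
  have hz2 : Z.card ≤ 2 * m := by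
    obtain ⟨p, hp⟩ := card_pos.mp (by omega : 0 < X.card)
    have h6 := card_le_card ((hXm p).mp hp)
    have h7 := card_biUnion_le_card_mul (N p) S m (fun q _ => hS q)
    have h8 := hN p
    have h9 : (N p).card * m ≤ 2 * m := Nat.mul_le_mul_right m h8
    omega
  rcases Nat.lt_or_ge m Z.card with hm | hm
  · have hB : Bad N S m Z X := ⟨hN, hM, hS, hA, hopt, hXm, hm⟩
    have hY1 : (X.filter fun p => ∃ p', p' ≠ p ∧ N p' = N p).card ≤ 2 * m :=
      (card_le_card (filter_subset _ _)).trans hx2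
    have hY2 : (X.filter fun p => ∃ p', p' ≠ p ∧ N p' = N p).card ≤
        (univ.filter fun p => (N p).card = 2 ∧ ∃ p', p' ≠ p ∧ N p' = N p).card := by
      refine card_le_card fun p hp => ?_
      rw [mem_filter] at hp ⊢
      exact ⟨mem_univ _, hB.two hp.1, hp.2⟩
    have := bound_few hB s _ rfl (by omega) (by omega) hz2
    omega
  · omega

/-- Placing both sides. -/
theorem place {P Q A B : Type*} [Fintype P] [Fintype Q] [Fintype A] [Fintype B] [DecidableEq P]
    [DecidableEq Q] [DecidableEq A] [DecidableEq B] (N : P → Finset Q) (R : B → Finset A)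
    (m s : ℕ) (hP : Fintype.card P = s) (hQ : Fintype.card Q = s) (hAs : Fintype.card A = s)
    (hBs : Fintype.card B = s) (hN : ∀ p, (N p).card ≤ 2) (hM : ∀ q, (MM N q).card ≤ 2)
    (hR : ∀ b, (R b).card ≤ m) (hA : ∀ a, (univ.filter fun b => a ∈ R b).card ≤ m)
    (hcase : 10 * m ≤ 3 * s ∨ 3 * m ≤ s ∧ 44 * m + 3 * (univ.filter fun p =>
      (N p).card = 2 ∧ ∃ p', p' ≠ p ∧ N p' = N p).card ≤ 15 * s) :
    ∃ (f : P → A) (β : Q ≃ B), Function.Injective f ∧ ∀ p, ∀ q ∈ N p, f p ∉ R (β q) := by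
  haveI : Nonempty (Q ≃ B) := Fintype.card_eq.mp (hQ.trans hBs.symm)
  obtain ⟨β, hβ⟩ := Finite.exists_max fun β : Q ≃ B => pot N (fun q => R (β q))
  obtain ⟨f, hf, hf'⟩ := place_opt N (fun q => R (β q)) m s hP hAs hN hM (fun q => hR _)
    (fun a => by
      refine le_trans (le_of_eq ?_) (hA a)
      refine card_bij (fun q _ => β q) ?_ ?_ ?_
      · intro q hq
        simpa using hq
      · intro q _ q' _ h
        exact β.injective h
      · intro b hb
        refine ⟨β.symm b, ?_, β.apply_symm_apply b⟩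
        simpa using hb)
    (fun q u => hβ ((Equiv.swap q u).trans β)) hcase
  exact ⟨f, β, hf, hf'⟩

theorem deg_filter {V : Type*} [Fintype V] [DecidableEq V] (G : SimpleGraph V)
    [DecidableRel G.Adj] (p : V → Prop) [Fintype {x // p x}] (v : V) (h : ∀ w, G.Adj v w → p w) :
    (univ.filter fun a : {x // p x} => G.Adj v a.1).card = G.degree v := by
  rw [← SimpleGraph.card_neighborFinset_eq_degree]
  refine card_bij (fun a _ => a.1) ?_ ?_ ?_
  · intro a ha
    rw [mem_filter] at ha
    rw [SimpleGraph.mem_neighborFinset]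
    exact ha.2
  · intro a _ b _ hab
    exact Subtype.ext hab
  · intro w hw
    rw [SimpleGraph.mem_neighborFinset] at hw
    exact ⟨⟨w, h w hw⟩, mem_filter.mpr ⟨mem_univ _, hw⟩, rfl⟩

open SimpleGraph in
theorem main {V W : Type*} [Fintype V] [Fintype W] [DecidableEq V]
    (G : SimpleGraph V) (H : SimpleGraph W) [DecidableRel G.Adj] [DecidableRel H.Adj] (s : ℕ)
    (A B : Finset V) (hG : G.IsBipartiteWith (A : Set V) (B : Set V)) (hAB : A ∪ B = univ)
    (hA : A.card = s) (hB : B.card = s) (hH : H.IsBipartite) (hW : Fintype.card W = 2 * s)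
    (hΔ : ∀ v, H.degree v ≤ 2)
    (hcase : 7 * s ≤ 10 * G.minDegree ∨ 2 * s ≤ 3 * G.minDegree ∧
      58 * s + 3 * {v | ∃ u x y, u ≠ v ∧ x ≠ y ∧ H.Adj v x ∧ H.Adj v y ∧ H.Adj u x ∧
        H.Adj u y}.ncard ≤ 88 * G.minDegree) :
    H ⊑ G := by
  classical
  obtain ⟨χ, hχ, ht, hf⟩ := balanced H hH (fun v => (ncard_eq_degree H v).trans_le (hΔ v)) s hW
  obtain ⟨N, hN⟩ : ∃ N : {w // χ w = true} → Finset {w // χ w = false},
    N = fun p => univ.filter fun q => H.Adj p.1 q.1 := ⟨_, rfl⟩
  obtain ⟨R, hR⟩ : ∃ R : {v // v ∈ B} → Finset {v // v ∈ A},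
    R = fun b => univ.filter fun a => ¬ G.Adj b.1 a.1 := ⟨_, rfl⟩
  have hNm : ∀ p q, q ∈ N p ↔ H.Adj p.1 q.1 := by
    intro p q
    rw [hN]
    simp
  have hRm : ∀ b a, a ∈ R b ↔ ¬ G.Adj b.1 a.1 := by
    intro b a
    rw [hR]
    simp
  have hN2 : ∀ p, (N p).card ≤ 2 := by
    intro p
    have h1 := deg_filter H (fun w => χ w = false) p.1 (fun w hw => by
      have := hχ _ _ hw
      rw [p.2] at this
      simpa using this.symm)
    rw [hN]
    exact h1.le.trans (hΔ _)
  have hM2 : ∀ q, (MM N q).card ≤ 2 := by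
    intro q
    have h1 := deg_filter H (fun w => χ w = true) q.1 (fun w hw => by
      have := hχ _ _ hw
      rw [q.2] at this
      simpa using this.symm)
    have h2 : MM N q = univ.filter fun a : {w // χ w = true} => H.Adj q.1 a.1 := by
      ext p
      rw [mem_MM, hNm, mem_filter, H.adj_comm]
      simp
    rw [h2]
    exact h1.le.trans (hΔ _)
  have hadj : ∀ v w, G.Adj v w → v ∈ A ∧ w ∈ B ∨ v ∈ B ∧ w ∈ A := fun v w h => by
    simpa using hG.mem_of_adj h
  have hdis : ∀ v, v ∈ A → v ∉ B := by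
    intro v h1 h2
    exact Set.disjoint_left.mp hG.disjoint (mem_coe.mpr h1) (mem_coe.mpr h2)
  have hcA : Fintype.card {v // v ∈ A} = s := by rw [Fintype.card_coe, hA]
  have hcB : Fintype.card {v // v ∈ B} = s := by rw [Fintype.card_coe, hB]
  have hRc : ∀ b, (R b).card ≤ s - G.minDegree := by
    intro b
    have h1 := deg_filter G (fun v => v ∈ A) b.1 (fun w hw => by
      rcases hadj _ _ hw with h | h
      · exact absurd b.2 (hdis _ h.1)
      · exact h.2)
    have h2 := card_filter_add_card_filter_not (s := (univ : Finset {v // v ∈ A}))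
      (fun a => G.Adj b.1 a.1)
    rw [h1, card_univ, hcA] at h2
    have h3 := G.minDegree_le_degree b.1
    rw [hR]
    simp only
    omega
  have hRc' : ∀ a, (univ.filter fun b => a ∈ R b).card ≤ s - G.minDegree := by
    intro a
    have h1 := deg_filter G (fun v => v ∈ B) a.1 (fun w hw => by
      rcases hadj _ _ hw with h | h
      · exact h.2
      · exact absurd h.1 (hdis _ a.2))
    have h2 := card_filter_add_card_filter_not (s := (univ : Finset {v // v ∈ B}))
      (fun b => G.Adj a.1 b.1)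
    rw [h1, card_univ, hcB] at h2
    have h3 := G.minDegree_le_degree a.1
    have h4 : (univ.filter fun b => a ∈ R b) =
        univ.filter fun b : {v // v ∈ B} => ¬ G.Adj a.1 b.1 := by
      ext b
      rw [mem_filter, mem_filter, hRm, G.adj_comm]
    rw [h4]
    omega
  have hcP : Fintype.card {w // χ w = true} = s := by rw [Fintype.card_subtype, ht]
  have hcQ : Fintype.card {w // χ w = false} = s := by rw [Fintype.card_subtype, hf]
  have hδs : G.minDegree ≤ s := by
    rcases s.eq_zero_or_pos with h0 | h0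
    · haveI : IsEmpty V := by
        rw [← Fintype.card_eq_zero_iff, ← card_univ, ← hAB, card_union_of_disjoint
          (disjoint_coe.mp hG.disjoint), hA, hB, h0]
      rw [minDegree_of_isEmpty]
      exact Nat.zero_le _
    · obtain ⟨a, ha⟩ := card_pos.mp (by omega : 0 < A.card)
      have h1 := deg_filter G (fun v => v ∈ B) a (fun w hw => by
        rcases hadj _ _ hw with h | h
        · exact h.2
        · exact absurd h.1 (hdis _ ha))
      have h2 := card_filter_le (univ : Finset {v // v ∈ B}) (fun b => G.Adj a b.1)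
      rw [h1, card_univ, hcB] at h2
      exact (G.minDegree_le_degree a).trans h2
  have hcase' : 10 * (s - G.minDegree) ≤ 3 * s ∨ 3 * (s - G.minDegree) ≤ s ∧
      44 * (s - G.minDegree) + 3 * (univ.filter fun p =>
        (N p).card = 2 ∧ ∃ p', p' ≠ p ∧ N p' = N p).card ≤ 15 * s := by
    rcases hcase with h | ⟨h, hc⟩
    · left
      omega
    · right
      refine ⟨by omega, ?_⟩
      obtain ⟨T, hT⟩ : ∃ T : Finset {w // χ w = true}, T = univ.filter fun p =>
        (N p).card = 2 ∧ ∃ p', p' ≠ p ∧ N p' = N p := ⟨_, rfl⟩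
      have hTm : ∀ p, p ∈ T ↔ (N p).card = 2 ∧ ∃ p', p' ≠ p ∧ N p' = N p := fun p => by
        rw [hT, mem_filter]
        simp
      rw [← hT]
      have hU : T.card * 2 ≤ (T.biUnion N).card * 2 := by
        refine card_mul_le_card_mul (fun p q => q ∈ N p) ?_ ?_
        · intro p hp
          rw [← ((hTm p).mp hp).1]
          refine card_le_card fun q hq => ?_
          rw [mem_bipartiteAbove]
          exact ⟨mem_biUnion.mpr ⟨p, hp, hq⟩, hq⟩
        · intro q _
          refine le_trans (card_le_card fun p hp => ?_) (hM2 q)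
          rw [mem_bipartiteBelow] at hp
          exact mem_MM.mpr hp.2
      have hsub : ((T.image Subtype.val ∪ (T.biUnion N).image Subtype.val : Finset W) : Set W) ⊆
          {v | ∃ u x y, u ≠ v ∧ x ≠ y ∧ H.Adj v x ∧ H.Adj v y ∧ H.Adj u x ∧ H.Adj u y} := by
        intro v hv
        rw [mem_coe, mem_union, mem_image, mem_image] at hv
        rcases hv with ⟨p, hp, rfl⟩ | ⟨q, hq, rfl⟩
        · obtain ⟨h2, p', hpp', hNN⟩ := (hTm p).mp hp
          obtain ⟨x, y, hxy, hNp⟩ := card_eq_two.mp h2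
          have hx : x ∈ N p := by rw [hNp]; simp
          have hy : y ∈ N p := by rw [hNp]; simp
          exact ⟨p'.1, x.1, y.1, fun h => hpp' (Subtype.ext h), fun h => hxy (Subtype.ext h),
            (hNm _ _).mp hx, (hNm _ _).mp hy, (hNm _ _).mp (hNN ▸ hx), (hNm _ _).mp (hNN ▸ hy)⟩
        · rw [mem_biUnion] at hq
          obtain ⟨p, hp, hq⟩ := hq
          obtain ⟨h2, p', hpp', hNN⟩ := (hTm p).mp hp
          obtain ⟨r, hr, hrq⟩ := exists_mem_ne (by omega : 1 < (N p).card) q
          exact ⟨r.1, p.1, p'.1, fun h => hrq (Subtype.ext h), fun h => hpp' (Subtype.ext h).symm,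
            ((hNm _ _).mp hq).symm, ((hNm _ _).mp (hNN ▸ hq)).symm, ((hNm _ _).mp hr).symm,
            ((hNm _ _).mp (hNN ▸ hr)).symm⟩
      have hcard := Set.ncard_le_ncard hsub (Set.toFinite _)
      rw [Set.ncard_coe_finset, card_union_of_disjoint, card_image_of_injective _
        Subtype.val_injective, card_image_of_injective _ Subtype.val_injective] at hcard
      · omega
      · rw [Finset.disjoint_left]
        intro v hv hv'
        rw [mem_image] at hv hv'
        obtain ⟨p, -, rfl⟩ := hv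
        obtain ⟨q, -, hqp⟩ := hv'
        have h1 := p.2
        rw [← hqp, q.2] at h1
        exact Bool.noConfusion h1
  obtain ⟨f, β, hfi, hf'⟩ := place N R (s - G.minDegree) s hcP hcQ hcA hcB hN2 hM2 hRc hRc' hcase'
  have hfalse : ∀ w, χ w ≠ true → χ w = false := fun w h => by simpa using h
  obtain ⟨F, hF⟩ : ∃ F : W → V, F = fun w => if h : χ w = true then (f ⟨w, h⟩).1 else
    (β ⟨w, hfalse w h⟩).1 := ⟨_, rfl⟩
  have hFt : ∀ w (h : χ w = true), F w = (f ⟨w, h⟩).1 := fun w h => by rw [hF]; exact dif_pos h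
  have hFf : ∀ w (h : χ w = false), F w = (β ⟨w, h⟩).1 := fun w h => by
    rw [hF]
    exact dif_neg (by rw [h]; exact Bool.false_ne_true)
  have hkey : ∀ v w, H.Adj v w → χ v = true → χ w = false → G.Adj (F v) (F w) := by
    intro v w hvw h1 h2
    rw [hFt v h1, hFf w h2]
    have h3 := hf' ⟨v, h1⟩ ⟨w, h2⟩ ((hNm _ _).mpr hvw)
    rw [hRm, not_not] at h3
    exact h3.symm
  refine ⟨⟨⟨F, ?_⟩, ?_⟩⟩
  · intro v w hvw
    have h1 := hχ v w hvw
    rcases Bool.eq_false_or_eq_true (χ v) with h2 | h2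
    · exact hkey v w hvw h2 (by rw [h2] at h1; simpa using h1.symm)
    · exact (hkey w v hvw.symm (by rw [h2] at h1; simpa using h1.symm) h2).symm
  · intro v w hvw
    change F v = F w at hvw
    rcases Bool.eq_false_or_eq_true (χ v) with h2 | h2 <;>
      rcases Bool.eq_false_or_eq_true (χ w) with h3 | h3
    · rw [hFt v h2, hFt w h3] at hvw
      exact congrArg Subtype.val (hfi (Subtype.ext hvw))
    · rw [hFt v h2, hFf w h3] at hvw
      exact absurd (hvw ▸ (β ⟨w, h3⟩).2) (hdis _ (f ⟨v, h2⟩).2)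
    · rw [hFf v h2, hFt w h3] at hvw
      exact absurd (hvw ▸ (β ⟨v, h2⟩).2) (hdis _ (f ⟨w, h3⟩).2)
    · rw [hFf v h2, hFf w h3] at hvw
      exact congrArg Subtype.val (β.injective (Subtype.ext hvw))

end Pool.Agent.Helper75.WG
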