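import Mathlib

/-!
# Swaps in a quadratic assignment (MP_abf47a_co)
-/

set_option autoImplicit false

namespace Pool.Agent.Helper75.WG

open Finset

section swapsum

variable {Q : Type*} [Fintype Q] [DecidableEq Q]

/-- The rest of the set. -/
theorem sum_split (f : Q → ℤ) {q u : Q} (hqu : q ≠ u) :
    ∑ x, f x = f q + f u + ∑ x ∈ univ.filter (fun x => x ≠ q ∧ x ≠ u), f x := by
  have h1 : (univ : Finset Q) = insert q (insert u (univ.filter fun x => x ≠ q ∧ x ≠ u)) := by
    ext x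
    simp only [mem_univ, mem_insert, mem_filter, true_and, true_iff]
    tauto
  conv_lhs => rw [h1]
  rw [sum_insert, sum_insert]
  · ring
  · simp
  · simp [hqu]

/-- The change of a quadratic form under a swap. -/
theorem swap_diff (w g : Q → Q → ℤ) (hw : ∀ x y, w x y = w y x) (hg : ∀ x y, g x y = g y x)
    (hd : ∀ x, w x x = 0) {q u : Q} (hqu : q ≠ u) :
    ∑ x, ∑ y, w x y * g x y - ∑ x, ∑ y, w x y * g (Equiv.swap q u x) (Equiv.swap q u y) =
      2 * ∑ y ∈ univ.filter (fun y => y ≠ q ∧ y ≠ u), (w q y - w u y) * (g q y - g u y) := by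
  obtain ⟨σ, hσ⟩ : ∃ σ : Equiv.Perm Q, σ = Equiv.swap q u := ⟨_, rfl⟩
  rw [← hσ]
  have hσq : σ q = u := hσ ▸ Equiv.swap_apply_left q u
  have hσu : σ u = q := hσ ▸ Equiv.swap_apply_right q u
  have hσσ : ∀ x, σ (σ x) = x := fun x => hσ ▸ Equiv.swap_apply_self q u x
  have hσx : ∀ x ∈ univ.filter (fun x => x ≠ q ∧ x ≠ u), σ x = x := fun x hx => by
    rw [mem_filter] at hx
    rw [hσ]
    exact Equiv.swap_apply_of_ne_of_ne hx.2.1 hx.2.2
  have h1 : ∑ x, ∑ y, w x y * g (σ x) (σ y) = ∑ x, ∑ y, w (σ x) (σ y) * g x y := by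
    rw [← Equiv.sum_comp σ (fun x => ∑ y, w x y * g (σ x) (σ y))]
    refine sum_congr rfl fun x _ => ?_
    rw [← Equiv.sum_comp σ (fun y => w (σ x) y * g (σ (σ x)) (σ y))]
    refine sum_congr rfl fun y _ => ?_
    rw [hσσ, hσσ]
  rw [h1, ← sum_sub_distrib]
  have h2 : ∀ x, ∑ y, w x y * g x y - ∑ y, w (σ x) (σ y) * g x y =
      ∑ y, (w x y - w (σ x) (σ y)) * g x y := by
    intro x
    rw [← sum_sub_distrib]
    exact sum_congr rfl fun y _ => by ring
  simp only [h2]
  have hq : ∑ y, (w q y - w (σ q) (σ y)) * g q y =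
      ∑ y ∈ univ.filter (fun y => y ≠ q ∧ y ≠ u), (w q y - w u y) * g q y := by
    rw [sum_split _ hqu, hσq, hσu, hd, hd, hw u q]
    have : ∑ x ∈ univ.filter (fun x => x ≠ q ∧ x ≠ u), (w q x - w u (σ x)) * g q x =
        ∑ y ∈ univ.filter (fun y => y ≠ q ∧ y ≠ u), (w q y - w u y) * g q y :=
      sum_congr rfl fun x hx => by rw [hσx x hx]
    rw [this]
    ring
  have hu : ∑ y, (w u y - w (σ u) (σ y)) * g u y =
      ∑ y ∈ univ.filter (fun y => y ≠ q ∧ y ≠ u), (w u y - w q y) * g u y := by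
    rw [sum_split _ hqu, hσq, hσu, hd, hd, hw u q]
    have : ∑ x ∈ univ.filter (fun x => x ≠ q ∧ x ≠ u), (w u x - w q (σ x)) * g u x =
        ∑ y ∈ univ.filter (fun y => y ≠ q ∧ y ≠ u), (w u y - w q y) * g u y :=
      sum_congr rfl fun x hx => by rw [hσx x hx]
    rw [this]
    ring
  have hx : ∀ x ∈ univ.filter (fun x => x ≠ q ∧ x ≠ u),
      ∑ y, (w x y - w (σ x) (σ y)) * g x y = (w q x - w u x) * (g q x - g u x) := by
    intro x hxE
    rw [sum_split _ hqu, hσq, hσu, hσx x hxE]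
    have : ∑ y ∈ univ.filter (fun y => y ≠ q ∧ y ≠ u), (w x y - w x (σ y)) * g x y = 0 :=
      sum_eq_zero fun y hy => by rw [hσx y hy]; ring
    rw [this, hw x q, hw x u, hg x q, hg x u]
    ring
  rw [sum_split _ hqu, hq, hu, sum_congr rfl hx, ← sum_add_distrib, ← sum_add_distrib, mul_sum]
  exact sum_congr rfl fun y _ => by ring

end swapsum

section weights

variable {P Q A : Type*} [Fintype P] [Fintype Q] [DecidableEq P] [DecidableEq Q] [DecidableEq A]

/-- The number of the `p` with both `q` and `r` in `N p`; zero on the diagonal. -/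
def wt (N : P → Finset Q) (q r : Q) : ℤ :=
  if q = r then 0 else ((univ.filter fun p => q ∈ N p ∧ r ∈ N p).card : ℤ)

/-- The size of the intersection. -/
def ov (S : Q → Finset A) (q r : Q) : ℤ := ((S q ∩ S r).card : ℤ)

/-- The potential. -/
def pot (N : P → Finset Q) (S : Q → Finset A) : ℤ := ∑ q, ∑ r, wt N q r * ov S q r

/-- The `p` with `q` in `N p`. -/
def MM (N : P → Finset Q) (q : Q) : Finset P := univ.filter fun p => q ∈ N p

theorem mem_MM {N : P → Finset Q} {q : Q} {p : P} : p ∈ MM N q ↔ q ∈ N p := by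
  simp [MM]

theorem wt_comm (N : P → Finset Q) (q r : Q) : wt N q r = wt N r q := by
  unfold wt
  by_cases h : q = r
  · rw [if_pos h, if_pos h.symm]
  · rw [if_neg h, if_neg (Ne.symm h)]
    congr 2
    ext p
    simp [and_comm]

theorem ov_comm (S : Q → Finset A) (q r : Q) : ov S q r = ov S r q := by
  unfold ov
  rw [inter_comm]

theorem wt_self (N : P → Finset Q) (q : Q) : wt N q q = 0 := if_pos rfl

/-- The contribution of `p` to the change under the swap of `q` and `u`. -/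
def TT (N : P → Finset Q) (S : Q → Finset A) (p : P) (q u : Q) : ℤ :=
  ∑ y ∈ (N p).filter (fun y => y ≠ q ∧ y ≠ u), (ov S q y - ov S u y)

theorem sum_wt (N : P → Finset Q) (h : Q → ℤ) (q u : Q) :
    ∑ y ∈ univ.filter (fun y => y ≠ q ∧ y ≠ u), wt N q y * h y =
      ∑ p ∈ MM N q, ∑ y ∈ (N p).filter (fun y => y ≠ q ∧ y ≠ u), h y := by
  have h1 : ∀ y ∈ univ.filter (fun y => y ≠ q ∧ y ≠ u), wt N q y * h y =
      ∑ p ∈ MM N q, if y ∈ N p then h y else 0 := by
    intro y hy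
    rw [mem_filter] at hy
    rw [wt, if_neg (Ne.symm hy.2.1), ← sum_filter, sum_const, nsmul_eq_mul]
    congr 3
    ext p
    simp [MM]
  rw [sum_congr rfl h1, sum_comm]
  refine sum_congr rfl fun p _ => ?_
  rw [← sum_filter]
  refine sum_congr ?_ fun _ _ => rfl
  ext y
  simp only [mem_filter, mem_univ, true_and]
  tauto

/-- The inequality at a maximum of the potential. -/
theorem star {N : P → Finset Q} {S : Q → Finset A} {q u : Q} (hqu : q ≠ u)
    (hopt : pot N (fun x => S (Equiv.swap q u x)) ≤ pot N S) :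
    0 ≤ ∑ p ∈ MM N q, TT N S p q u + ∑ p ∈ MM N u, TT N S p u q := by
  have h1 := swap_diff (wt N) (ov S) (wt_comm N) (ov_comm S) (wt_self N) hqu
  have h2 : ∑ x, ∑ y, wt N x y * ov S (Equiv.swap q u x) (Equiv.swap q u y) =
      pot N (fun x => S (Equiv.swap q u x)) := rfl
  rw [h2] at h1
  have h3 : pot N S = ∑ x, ∑ y, wt N x y * ov S x y := rfl
  rw [← h3] at h1
  have h4 : ∑ y ∈ univ.filter (fun y => y ≠ q ∧ y ≠ u),
      (wt N q y - wt N u y) * (ov S q y - ov S u y) =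
      ∑ y ∈ univ.filter (fun y => y ≠ q ∧ y ≠ u), wt N q y * (ov S q y - ov S u y) +
        ∑ y ∈ univ.filter (fun y => y ≠ u ∧ y ≠ q), wt N u y * (ov S u y - ov S q y) := by
    have e : univ.filter (fun y : Q => y ≠ u ∧ y ≠ q) = univ.filter (fun y => y ≠ q ∧ y ≠ u) := by
      ext y
      simp [and_comm]
    rw [e, ← sum_add_distrib]
    exact sum_congr rfl fun y _ => by ring
  rw [h4, sum_wt, sum_wt] at h1
  have h5 : ∑ p ∈ MM N q, TT N S p q u + ∑ p ∈ MM N u, TT N S p u q =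
      ∑ p ∈ MM N q, ∑ y ∈ (N p).filter (fun y => y ≠ q ∧ y ≠ u), (ov S q y - ov S u y) +
        ∑ p ∈ MM N u, ∑ y ∈ (N p).filter (fun y => y ≠ u ∧ y ≠ q), (ov S u y - ov S q y) := rfl
  rw [h5]
  linarith

end weights

end Pool.Agent.Helper75.WG
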